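import Mathlib
import Pool.Agent.Helper290.Proj

set_option autoImplicit false

namespace Pool.Agent.Results.MP_71be7b_lc.Continuum

open Set Pool.Agent.Helper290.Proj

/-- The projective algebras generated by `k` subsets of the plane. -/
def KGenerated (k : ℕ) : Type :=
  {F : Set (Set Plane) // ∃ S : Fin k → Set Plane, F = generated (range S)}

theorem KGenerated.isProjAlg {k : ℕ} (F : KGenerated k) : IsProjAlg F.1 := by
  obtain ⟨F, S, rfl⟩ := F
  exact generated_isProjAlg _

/-- Isomorphism as an equivalence relation on the `k`-generated projective algebras. -/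
def isoSetoid (k : ℕ) : Setoid (KGenerated k) where
  r F G := Isomorphic F.1 G.1
  iseqv := ⟨fun F => isomorphic_refl F.1, fun {F G} h => isomorphic_symm F.isProjAlg G.isProjAlg h,
    fun {F _ _} h h' => isomorphic_trans F.isProjAlg h h'⟩

theorem le_card_of_fibres {X Q : Type} (h : X → Q) (κ : Cardinal)
    (hX : Cardinal.aleph0 ≤ Cardinal.mk X)
    (hκ : κ < Cardinal.mk X) (hfib : ∀ x, Cardinal.mk {y // h y = h x} ≤ κ) :
    Cardinal.mk X ≤ Cardinal.mk Q := by
  by_contra hcon
  push Not at hcon
  have h1 : Cardinal.mk X = Cardinal.mk (Σ q : Q, {y : X // h y = q}) :=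
    Cardinal.mk_congr (Equiv.sigmaFiberEquiv h).symm
  have h2 : Cardinal.mk (Σ q : Q, {y : X // h y = q}) ≤ Cardinal.mk Q * κ := by
    rw [Cardinal.mk_sigma]
    refine (Cardinal.sum_le_sum _ (fun _ => κ) (fun q => ?_)).trans ?_
    · by_cases hq : ∃ x, h x = q
      · obtain ⟨x, rfl⟩ := hq
        exact hfib x
      · have : IsEmpty {y : X // h y = q} := ⟨fun y => hq ⟨y.1, y.2⟩⟩
        rw [Cardinal.mk_eq_zero]
        exact bot_le
    · simp
  have h3 : Cardinal.mk Q * κ < Cardinal.mk X := Cardinal.mul_lt_of_lt hX hcon hκ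
  exact absurd (h1.le.trans h2) (not_le.mpr h3)

/-- Tuples with the same equational theory generate isomorphic algebras. -/
theorem isomorphic_of_theory {k : ℕ} (hk : 1 ≤ k) (S T : Fin k → Set Plane)
    (h : ∀ t s : Term k, t.eval S = s.eval S ↔ t.eval T = s.eval T) :
    Isomorphic (generated (range S)) (generated (range T)) := by
  classical
  rw [generated_eq_range hk, generated_eq_range hk]
  let φ : Set Plane → Set Plane := fun A => if hA : ∃ t : Term k, t.eval S = A then
    hA.choose.eval T else ∅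
  have hφ : ∀ t : Term k, φ (t.eval S) = t.eval T := by
    intro t
    have hA : ∃ s : Term k, s.eval S = t.eval S := ⟨t, rfl⟩
    simp only [φ, dif_pos hA]
    exact (h _ _).mp hA.choose_spec
  refine ⟨φ, ⟨?_, ?_, ?_⟩, ?_, ?_, ?_, ?_, ?_⟩
  · rintro _ ⟨t, rfl⟩
    rw [hφ]; exact ⟨t, rfl⟩
  · rintro _ ⟨t, rfl⟩ _ ⟨s, rfl⟩ hts
    rw [hφ, hφ] at hts
    exact (h _ _).mpr hts
  · rintro _ ⟨t, rfl⟩
    exact ⟨t.eval S, ⟨t, rfl⟩, hφ t⟩
  · rintro _ ⟨t, rfl⟩
    rw [hφ]; exact hφ (.compl t)
  · rintro _ ⟨t, rfl⟩ _ ⟨s, rfl⟩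
    rw [hφ, hφ]; exact hφ (.union t s)
  · rintro _ ⟨t, rfl⟩
    rw [hφ]; exact hφ (.proj1 t)
  · rintro _ ⟨t, rfl⟩
    rw [hφ]; exact hφ (.proj2 t)
  · rintro _ ⟨t, rfl⟩ _ ⟨s, rfl⟩ _ _
    rw [hφ, hφ]; exact hφ (.prod t s)

/-- For every `k ≥ 1` the number of isomorphism classes of projective algebras generated by `k`
subsets of the plane is the continuum. -/
theorem result (k : ℕ) (hk : 1 ≤ k) :
    Cardinal.mk (Quotient (isoSetoid k)) = Cardinal.continuum := by
  apply le_antisymm
  · have h1 : Cardinal.mk (Set (Term k × Term k)) ≤ Cardinal.continuum := by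
      rw [Cardinal.mk_set, ← Cardinal.two_power_aleph0]
      exact Cardinal.power_le_power_left two_ne_zero Cardinal.mk_le_aleph0
    refine le_trans ?_ h1
    have hch : ∀ q : Quotient (isoSetoid k), ∃ S : Fin k → Set Plane,
        q.out.1 = generated (range S) := fun q => q.out.2
    choose S hS using hch
    refine Cardinal.mk_le_of_injective
      (f := fun q => {p : Term k × Term k | p.1.eval (S q) = p.2.eval (S q)}) ?_
    intro q q' hqq'
    have h2 : Isomorphic q.out.1 q'.out.1 := by
      rw [hS, hS]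
      apply isomorphic_of_theory hk
      intro t s
      exact Set.ext_iff.mp hqq' (t, s)
    rw [← Quotient.out_eq q, ← Quotient.out_eq q']
    exact Quotient.sound (s := isoSetoid k) h2
  · have hN : Cardinal.mk (Set ℕ) = Cardinal.continuum := by
      rw [Cardinal.mk_set, Cardinal.mk_nat, Cardinal.two_power_aleph0]
    rw [← hN]
    let A : Set ℕ → KGenerated k := fun S =>
      ⟨generated (range (fun _ : Fin k => code S)), ⟨_, rfl⟩⟩
    refine le_card_of_fibres (fun S => Quotient.mk (isoSetoid k) (A S)) Cardinal.aleph0 ?_ ?_ ?_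
    · rw [hN]; exact Cardinal.aleph0_le_continuum
    · rw [hN]; exact Cardinal.aleph0_lt_continuum
    · intro S'
      have hcount : (A S').1.Countable := generated_countable hk _
      have : Countable (A S').1 := hcount.to_subtype
      have hmem : ∀ S, code S ∈ (A S).1 := fun S => subset_generated _ ⟨⟨0, hk⟩, rfl⟩
      have hch : ∀ S : {S // Quotient.mk (isoSetoid k) (A S) = Quotient.mk (isoSetoid k) (A S')},
          ∃ H : (A S').1, decode (H : Set Plane) = S.1 := by
        rintro ⟨S, hS⟩
        obtain ⟨φ, h0, h1, h2, h3, h4, h5⟩ : Isomorphic (A S).1 (A S').1 := Quotient.exact hS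
        refine ⟨⟨φ (code S), h0.mapsTo (hmem S)⟩, ?_⟩
        have := decode_map (A S).isProjAlg ⟨h1, h2, h3, h4, h5⟩ h0.injOn (hmem S)
        rw [this, decode_code]
      choose f hf using hch
      have hinj : Function.Injective f := by
        intro x y hxy
        apply Subtype.ext
        rw [← hf x, ← hf y, hxy]
      exact (Cardinal.mk_le_of_injective hinj).trans Cardinal.mk_le_aleph0

end Pool.Agent.Results.MP_71be7b_lc.Continuum
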